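import Pool.Agent.MP_c853c5_nt.S.Defs
import Pool.Agent.MP_c853c5_nt.E.Basic

set_option autoImplicit false

open Finset Filter

namespace Pool.Agent.MP_c853c5_nt.S

/-! ### arithmetic functions -/

lemma AF_sub (f g : AF) (n : ℕ) : (f - g) n = f n - g n := by
  rw [sub_eq_add_neg, ArithmeticFunction.add_apply, ArithmeticFunction.neg_apply, sub_eq_add_neg]

lemma AF_smul (c : ℝ) (f : AF) (n : ℕ) : (c • f) n = c * f n := rfl

lemma AF_sum {ι : Type*} (s : Finset ι) (f : ι → AF) (n : ℕ) :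
    (∑ i ∈ s, f i) n = ∑ i ∈ s, f i n := by
  classical
  induction s using Finset.induction_on with
  | empty => simp
  | insert a s ha ih => rw [sum_insert ha, sum_insert ha, ArithmeticFunction.add_apply, ih]

/-- nonnegative -/
def Nn (f : AF) : Prop := ∀ n, 0 ≤ f n

/-- the pointwise order -/
def Le (f g : AF) : Prop := ∀ n, f n ≤ g n

lemma Nn.mul {f g : AF} (hf : Nn f) (hg : Nn g) : Nn (f * g) := fun n => by
  rw [ArithmeticFunction.mul_apply]
  exact sum_nonneg fun p _ => mul_nonneg (hf _) (hg _)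

lemma Nn.add {f g : AF} (hf : Nn f) (hg : Nn g) : Nn (f + g) := fun n => add_nonneg (hf n) (hg n)

lemma nn_one : Nn 1 := fun n => by
  rw [ArithmeticFunction.one_apply]
  split_ifs <;> norm_num

lemma nn_zero : Nn 0 := fun _ => le_rfl

lemma Nn.prod {ι : Type*} {s : Finset ι} {f : ι → AF} (h : ∀ i ∈ s, Nn (f i)) :
    Nn (∏ i ∈ s, f i) :=
  prod_induction f Nn (fun _ _ => Nn.mul) nn_one h

lemma Nn.list_prod {l : List AF} (h : ∀ f ∈ l, Nn f) : Nn l.prod :=
  List.prod_induction Nn (fun _ _ => Nn.mul) nn_one h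

lemma Nn.sum {ι : Type*} {s : Finset ι} {f : ι → AF} (h : ∀ i ∈ s, Nn (f i)) :
    Nn (∑ i ∈ s, f i) :=
  sum_induction f Nn (fun _ _ => Nn.add) nn_zero h

lemma Nn.pow {f : AF} (h : Nn f) (k : ℕ) : Nn (f ^ k) := by
  induction k with
  | zero => simpa using nn_one
  | succ k ih => rw [pow_succ]; exact ih.mul h

lemma Le.refl (f : AF) : Le f f := fun _ => le_rfl

lemma Le.trans {f g h : AF} (h1 : Le f g) (h2 : Le g h) : Le f h := fun n => (h1 n).trans (h2 n)

lemma le_iff_nn {f g : AF} : Le f g ↔ Nn (g - f) :=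
  forall_congr' fun n => by rw [AF_sub, sub_nonneg]

lemma Le.mul_left {f g h : AF} (hh : Nn h) (hfg : Le f g) : Le (h * f) (h * g) := by
  rw [le_iff_nn, ← mul_sub]
  exact hh.mul (le_iff_nn.1 hfg)

lemma Le.mul_right {f g h : AF} (hh : Nn h) (hfg : Le f g) : Le (f * h) (g * h) := by
  rw [mul_comm f, mul_comm g]
  exact hfg.mul_left hh

lemma Le.mul {f g f' g' : AF} (h1 : Le f g) (h2 : Le f' g') (hg : Nn g) (hf' : Nn f') :
    Le (f * f') (g * g') :=
  (h1.mul_right hf').trans (h2.mul_left hg)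

lemma Le.add {f g f' g' : AF} (h1 : Le f g) (h2 : Le f' g') : Le (f + f') (g + g') :=
  fun n => add_le_add (h1 n) (h2 n)

lemma Le.nn {f g : AF} (h : Le f g) (hf : Nn f) : Nn g := fun n => (hf n).trans (h n)

lemma Le.prod {ι : Type*} {s : Finset ι} {f g : ι → AF} (h0 : ∀ i ∈ s, Nn (f i))
    (h : ∀ i ∈ s, Le (f i) (g i)) : Le (∏ i ∈ s, f i) (∏ i ∈ s, g i) := by
  classical
  induction s using Finset.induction_on with
  | empty => simpa using Le.refl 1
  | insert a s ha ih =>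
    rw [prod_insert ha, prod_insert ha]
    have h1 := h0 a (mem_insert_self _ _)
    have h2 := h a (mem_insert_self _ _)
    exact Le.mul h2
      (ih (fun i hi => h0 i (mem_insert_of_mem hi)) fun i hi => h i (mem_insert_of_mem hi))
      (h2.nn h1) (Nn.prod fun i hi => h0 i (mem_insert_of_mem hi))

/-- the absolute value of a convolution -/
lemma abs_mul_le {f g F G : AF} (hf : ∀ n, |f n| ≤ F n) (hg : ∀ n, |g n| ≤ G n) (n : ℕ) :
    |(f * g) n| ≤ (F * G) n := by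
  rw [ArithmeticFunction.mul_apply, ArithmeticFunction.mul_apply]
  refine (abs_sum_le_sum_abs _ _).trans (sum_le_sum fun p _ => ?_)
  rw [abs_mul]
  exact mul_le_mul (hf _) (hg _) (abs_nonneg _) ((abs_nonneg _).trans (hf _))

/-- a nonzero value of a convolution comes from a factorisation -/
lemma exists_of_mul_ne {f g : AF} {n : ℕ} (h : (f * g) n ≠ 0) :
    ∃ a b : ℕ, a * b = n ∧ f a ≠ 0 ∧ g b ≠ 0 := by
  rw [ArithmeticFunction.mul_apply] at h
  obtain ⟨p, hp, h1⟩ := exists_ne_zero_of_sum_ne_zero h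
  exact ⟨p.1, p.2, (Nat.mem_divisorsAntidiagonal.1 hp).1, left_ne_zero_of_mul h1,
    right_ne_zero_of_mul h1⟩

lemma exists_of_prod_ne {ι : Type*} [DecidableEq ι] (s : Finset ι) (f : ι → AF) {n : ℕ}
    (h : (∏ i ∈ s, f i) n ≠ 0) : ∃ m : ι → ℕ, ∏ i ∈ s, m i = n ∧ ∀ i ∈ s, f i (m i) ≠ 0 := by
  induction s using Finset.induction_on generalizing n with
  | empty =>
    rw [prod_empty, ArithmeticFunction.one_apply] at h
    exact ⟨fun _ => 1, by rw [prod_empty]; by_contra h1; exact h (if_neg (Ne.symm h1)), by simp⟩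
  | insert a s ha ih =>
    rw [prod_insert ha] at h
    obtain ⟨u, w, h1, h2, h3⟩ := exists_of_mul_ne h
    obtain ⟨m, h4, h5⟩ := ih h3
    have h6 : ∀ i ∈ s, Function.update m a u i = m i := fun i hi =>
      Function.update_of_ne (fun e : i = a => ha (e ▸ hi)) _ _
    refine ⟨Function.update m a u, ?_, fun i hi => ?_⟩
    · rw [prod_insert ha, Function.update_self, prod_congr rfl h6, h4, h1]
    · rcases mem_insert.1 hi with rfl | hi
      · rwa [Function.update_self]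
      · rw [h6 i hi]
        exact h5 i hi

/-! ### smoothed sums -/

/-- the window -/
def Win (x : ℝ) (n : ℕ) : Prop := x / 2 < n ∧ (n : ℝ) ≤ 2 * x

lemma win_of_mem {x : ℝ} {n : ℕ} (h : n ∈ Ioc ⌊x / 2⌋₊ ⌊2 * x⌋₊) : Win x n := by
  obtain ⟨h1, h2⟩ := mem_Ioc.1 h
  refine ⟨Nat.lt_of_floor_lt h1, ?_⟩
  rcases le_total 0 (2 * x) with h3 | h3
  · exact (Nat.le_floor_iff h3).1 h2
  · rw [Nat.floor_of_nonpos h3] at h2
    omega

lemma mem_of_win {x : ℝ} (hx : 0 ≤ x) {n : ℕ} (h : Win x n) : n ∈ Ioc ⌊x / 2⌋₊ ⌊2 * x⌋₊ :=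
  mem_Ioc.2 ⟨(Nat.floor_lt (by positivity)).2 h.1, Nat.le_floor h.2⟩

lemma gg_nonneg {Δ : ℝ} (h : 0 ≤ Δ) (z : ℝ) : 0 ≤ Z.gg Δ z := by
  unfold Z.gg
  positivity

lemma SS_add (x Δ : ℝ) (f g : AF) : SS x Δ (f + g) = SS x Δ f + SS x Δ g := by
  simp only [SS, ArithmeticFunction.add_apply, add_mul, sum_add_distrib]

lemma SS_sub (x Δ : ℝ) (f g : AF) : SS x Δ (f - g) = SS x Δ f - SS x Δ g := by
  simp only [SS, AF_sub, sub_mul, sum_sub_distrib]

lemma SS_smul (x Δ c : ℝ) (f : AF) : SS x Δ (c • f) = c * SS x Δ f := by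
  simp only [SS, AF_smul, mul_sum, mul_assoc]

lemma SS_zero (x Δ : ℝ) : SS x Δ 0 = 0 := by simp [SS]

lemma SS_sum {ι : Type*} (x Δ : ℝ) (s : Finset ι) (f : ι → AF) :
    SS x Δ (∑ i ∈ s, f i) = ∑ i ∈ s, SS x Δ (f i) := by
  simp only [SS, AF_sum, sum_mul]
  exact sum_comm

lemma SS_mono {x Δ : ℝ} (hΔ : 0 ≤ Δ) {f g : AF} (h : ∀ n, Win x n → f n ≤ g n) :
    SS x Δ f ≤ SS x Δ g :=
  sum_le_sum fun n hn => mul_le_mul_of_nonneg_right (h n (win_of_mem hn)) (gg_nonneg hΔ _)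

lemma SS_congr {x : ℝ} (Δ : ℝ) {f g : AF} (h : ∀ n, Win x n → f n = g n) :
    SS x Δ f = SS x Δ g :=
  sum_congr rfl fun n hn => by rw [h n (win_of_mem hn)]

lemma SS_nonneg {x Δ : ℝ} (hΔ : 0 ≤ Δ) {f : AF} (h : ∀ n, Win x n → 0 ≤ f n) : 0 ≤ SS x Δ f :=
  (SS_zero x Δ).ge.trans (SS_mono hΔ h)

lemma abs_SS_le {x Δ : ℝ} (hΔ : 0 ≤ Δ) {f g : AF} (h : ∀ n, Win x n → |f n| ≤ g n) :
    |SS x Δ f| ≤ SS x Δ g := by
  refine (abs_sum_le_sum_abs _ _).trans (sum_le_sum fun n hn => ?_)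
  rw [abs_mul, abs_of_nonneg (gg_nonneg hΔ _)]
  exact mul_le_mul_of_nonneg_right (h n (win_of_mem hn)) (gg_nonneg hΔ _)

lemma SB_add (x : ℝ) (f g : AF) : SB x (f + g) = SB x f + SB x g := SS_add _ _ _ _

lemma SB_sub (x : ℝ) (f g : AF) : SB x (f - g) = SB x f - SB x g := SS_sub _ _ _ _

lemma SB_smul (x c : ℝ) (f : AF) : SB x (c • f) = c * SB x f := SS_smul _ _ _ _

lemma SB_sum {ι : Type*} (x : ℝ) (s : Finset ι) (f : ι → AF) :
    SB x (∑ i ∈ s, f i) = ∑ i ∈ s, SB x (f i) := SS_sum _ _ _ _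

lemma SB_mono {x : ℝ} (hx : 0 ≤ x) {f g : AF} (h : ∀ n, Win x n → f n ≤ g n) :
    SB x f ≤ SB x g := SS_mono (Real.rpow_nonneg hx _) h

lemma SB_nonneg {x : ℝ} (hx : 0 ≤ x) {f : AF} (h : ∀ n, Win x n → 0 ≤ f n) : 0 ≤ SB x f :=
  SS_nonneg (Real.rpow_nonneg hx _) h

lemma Dl_add (t x : ℝ) (f g : AF) : Dl t x (f + g) = Dl t x f + Dl t x g := by
  simp only [Dl, SS_add, SB_add]
  ring

lemma Dl_sub (t x : ℝ) (f g : AF) : Dl t x (f - g) = Dl t x f - Dl t x g := by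
  simp only [Dl, SS_sub, SB_sub]
  ring

lemma Dl_smul (t x c : ℝ) (f : AF) : Dl t x (c • f) = c * Dl t x f := by
  simp only [Dl, SS_smul, SB_smul]
  ring

lemma Dl_zero (t x : ℝ) : Dl t x 0 = 0 := by simp [Dl, SB, SS_zero]

lemma Dl_sum {ι : Type*} (t x : ℝ) (s : Finset ι) (f : ι → AF) :
    Dl t x (∑ i ∈ s, f i) = ∑ i ∈ s, Dl t x (f i) := by
  simp only [Dl, SS_sum, SB_sum, sum_sub_distrib]

lemma Dl_congr (t : ℝ) {x : ℝ} {f g : AF} (h : ∀ n, Win x n → f n = g n) :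
    Dl t x f = Dl t x g := by
  rw [Dl, Dl, SB, SB, SS_congr _ h, SS_congr _ h]

/-- a nonnegative function loses at most its long sum -/
lemma neg_SB_le_Dl (t : ℝ) {x : ℝ} (hx : 0 ≤ x) {f : AF} (h : ∀ n, Win x n → 0 ≤ f n) :
    -SB x f ≤ Dl t x f := by
  have := SS_nonneg (Real.rpow_nonneg hx (-t)) h
  unfold Dl
  linarith

/-- the sandwich -/
lemma abs_Dl_le (t : ℝ) {x : ℝ} (hx : 0 ≤ x) {f g e : AF}
    (h : ∀ n, Win x n → |f n - g n| ≤ e n) :
    |Dl t x f| ≤ |Dl t x g| + |Dl t x e| + 2 * SB x e := by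
  have h1 : ∀ n, Win x n → |(f - g) n| ≤ e n := fun n hn => by rw [AF_sub]; exact h n hn
  have h2 := abs_le.1 (abs_SS_le (Real.rpow_nonneg hx (-t)) h1)
  have h3 := abs_le.1 (abs_SS_le (Real.rpow_nonneg hx (-(1 / 1000))) h1)
  rw [SS_sub] at h2 h3
  have h4 := le_abs_self (Dl t x g)
  have h5 := neg_abs_le (Dl t x g)
  have h6 := le_abs_self (Dl t x e)
  unfold Dl SB at *
  rw [abs_le]
  constructor <;> linarith [h2.1, h2.2, h3.1, h3.2]

lemma ev_unit_pos : ∀ᶠ x : ℝ in atTop, 0 ≤ x ∧ 0 < x / Real.log x := by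
  filter_upwards [eventually_gt_atTop 1] with x hx
  exact ⟨by linarith, div_pos (by linarith) (Real.log_pos hx)⟩

/-! ### the semantics -/

variable {t l l' m m' : ℝ} {f g : ℝ → AF}

lemma Low.mono (h : Low t f l) (hl : l ≤ l') : Low t f l' := fun ε hε => by
  filter_upwards [h ε hε, ev_unit_pos] with x h1 h2
  nlinarith [h2.2]

lemma Up.mono (h : Up t f l) (hl : l ≤ l') : Up t f l' := fun ε hε => by
  filter_upwards [h ε hε, ev_unit_pos] with x h1 h2
  nlinarith [h2.2]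

lemma Mass.mono (h : Mass f m) (hm : m ≤ m') : Mass f m' := fun ε hε => by
  filter_upwards [h ε hε, ev_unit_pos] with x h1 h2
  nlinarith [h2.2]

lemma Low.add (hf : Low t f l) (hg : Low t g l') : Low t (fun x => f x + g x) (l + l') :=
  fun ε hε => by
    filter_upwards [hf _ (half_pos hε), hg _ (half_pos hε)] with x h1 h2
    rw [Dl_add]
    linarith

lemma Up.add (hf : Up t f l) (hg : Up t g l') : Up t (fun x => f x + g x) (l + l') :=
  fun ε hε => by
    filter_upwards [hf _ (half_pos hε), hg _ (half_pos hε)] with x h1 h2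
    rw [Dl_add]
    linarith

lemma Mass.add (hf : Mass f m) (hg : Mass g m') : Mass (fun x => f x + g x) (m + m') :=
  fun ε hε => by
    filter_upwards [hf _ (half_pos hε), hg _ (half_pos hε)] with x h1 h2
    rw [SB_add]
    linarith

lemma Low.sub (hf : Low t f l) (hg : Up t g l') : Low t (fun x => f x - g x) (l + l') :=
  fun ε hε => by
    filter_upwards [hf _ (half_pos hε), hg _ (half_pos hε)] with x h1 h2
    rw [Dl_sub]
    linarith

lemma Up.sub (hf : Up t f l) (hg : Low t g l') : Up t (fun x => f x - g x) (l + l') :=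
  fun ε hε => by
    filter_upwards [hf _ (half_pos hε), hg _ (half_pos hε)] with x h1 h2
    rw [Dl_sub]
    linarith

lemma Low.congr (h : Low t f l) (e : ∀ᶠ x in atTop, ∀ n, Win x n → f x n = g x n) :
    Low t g l := fun ε hε => by
  filter_upwards [h ε hε, e] with x h1 h2
  rwa [← Dl_congr t h2]

lemma Up.congr (h : Up t f l) (e : ∀ᶠ x in atTop, ∀ n, Win x n → f x n = g x n) :
    Up t g l := fun ε hε => by
  filter_upwards [h ε hε, e] with x h1 h2
  rwa [← Dl_congr t h2]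

lemma Ev.congr (h : Ev t f) (e : ∀ᶠ x in atTop, ∀ n, Win x n → f x n = g x n) : Ev t g :=
  ⟨h.1.congr e, h.2.congr e⟩

lemma Mass.of_le (h : Mass g m) (e : ∀ᶠ x in atTop, ∀ n, Win x n → f x n ≤ g x n) :
    Mass f m := fun ε hε => by
  filter_upwards [h ε hε, e, ev_unit_pos] with x h1 h2 h3
  exact (SB_mono h3.1 h2).trans h1

/-- a nonnegative term may be dropped -/
lemma Low.drop (h : Mass f m) (e : ∀ᶠ x in atTop, ∀ n, Win x n → 0 ≤ f x n) : Low t f m :=
  fun ε hε => by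
    filter_upwards [h ε hε, e, ev_unit_pos] with x h1 h2 h3
    linarith [neg_SB_le_Dl t h3.1 h2]

/-- lower bound from a minorant -/
lemma Low.of_le {e : ℝ → AF} (hg : Low t g l) (he : Mass e m)
    (h : ∀ᶠ x in atTop, ∀ n, Win x n → g x n ≤ f x n ∧ f x n ≤ g x n + e x n) :
    Low t f (l + m) := by
  have h1 : Low t (fun x => f x - g x) m :=
    Low.drop (he.of_le (h.mono fun x hx n hn => by rw [AF_sub]; linarith [(hx n hn).2]))
      (h.mono fun x hx n hn => by rw [AF_sub]; linarith [(hx n hn).1])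
  exact (hg.add h1).congr (Eventually.of_forall fun x n _ => by rw [add_sub_cancel])

/-- upper bound from a majorant -/
lemma Up.of_le {e : ℝ → AF} (hg : Up t g l) (he : Mass e m)
    (h : ∀ᶠ x in atTop, ∀ n, Win x n → f x n ≤ g x n ∧ g x n ≤ f x n + e x n) :
    Up t f (l + m) := by
  have h1 : Low t (fun x => g x - f x) m :=
    Low.drop (he.of_le (h.mono fun x hx n hn => by rw [AF_sub]; linarith [(hx n hn).2]))
      (h.mono fun x hx n hn => by rw [AF_sub]; linarith [(hx n hn).1])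
  exact (hg.sub h1).congr (Eventually.of_forall fun x n _ => by rw [sub_sub_cancel])

lemma ev_zero (t : ℝ) : Ev t fun _ => 0 := by
  constructor <;> intro ε hε <;> filter_upwards [ev_unit_pos] with x h <;> rw [Dl_zero] <;>
    nlinarith [h.2]

lemma mass_zero : Mass (fun _ => 0) 0 := fun ε hε => by
  filter_upwards [ev_unit_pos] with x h
  rw [SB, SS_zero]
  nlinarith [h.2]

lemma ev_iff : Ev t f ↔ ∀ ε : ℝ, 0 < ε → ∀ᶠ x : ℝ in atTop,
    |Dl t x (f x)| ≤ ε * (x / Real.log x) := by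
  refine ⟨fun h ε hε => ?_, fun h => ⟨fun ε hε => ?_, fun ε hε => ?_⟩⟩
  · filter_upwards [h.1 ε hε, h.2 ε hε] with x h1 h2
    rw [zero_add] at h1 h2
    exact abs_le.2 ⟨h1, h2⟩
  · filter_upwards [h ε hε] with x h1
    rw [zero_add]
    exact (abs_le.1 h1).1
  · filter_upwards [h ε hε] with x h1
    rw [zero_add]
    exact (abs_le.1 h1).2

lemma Ev.add (hf : Ev t f) (hg : Ev t g) : Ev t fun x => f x + g x :=
  ⟨by simpa using hf.1.add hg.1, by simpa using hf.2.add hg.2⟩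

lemma Ev.sub (hf : Ev t f) (hg : Ev t g) : Ev t fun x => f x - g x :=
  ⟨by simpa using hf.1.sub hg.2, by simpa using hf.2.sub hg.1⟩

lemma Low.of_forall (h : ∀ δ : ℝ, 0 < δ → Low t f (l + δ)) : Low t f l := fun ε hε => by
  filter_upwards [h _ (half_pos hε) _ (half_pos hε)] with x h1
  rwa [add_assoc, add_halves] at h1

lemma Up.of_forall (h : ∀ δ : ℝ, 0 < δ → Up t f (l + δ)) : Up t f l := fun ε hε => by
  filter_upwards [h _ (half_pos hε) _ (half_pos hε)] with x h1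
  rwa [add_assoc, add_halves] at h1

lemma Low.smul {c : ℝ} (hc : 0 ≤ c) (h : Low t f l) : Low t (fun x => c • f x) (c * l) :=
  fun ε hε => by
    filter_upwards [h (ε / (c + 1)) (by positivity), ev_unit_pos] with x h1 h2
    rw [Dl_smul]
    have h3 : c * (ε / (c + 1)) ≤ ε := by
      rw [mul_div_assoc', div_le_iff₀ (by positivity)]
      nlinarith
    nlinarith [mul_le_mul_of_nonneg_left h1 hc, mul_le_mul_of_nonneg_right h3 h2.2.le]

lemma Up.smul {c : ℝ} (hc : 0 ≤ c) (h : Up t f l) : Up t (fun x => c • f x) (c * l) :=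
  fun ε hε => by
    filter_upwards [h (ε / (c + 1)) (by positivity), ev_unit_pos] with x h1 h2
    rw [Dl_smul]
    have h3 : c * (ε / (c + 1)) ≤ ε := by
      rw [mul_div_assoc', div_le_iff₀ (by positivity)]
      nlinarith
    nlinarith [mul_le_mul_of_nonneg_left h1 hc, mul_le_mul_of_nonneg_right h3 h2.2.le]

lemma Mass.smul {c : ℝ} (hc : 0 ≤ c) (h : Mass f m) : Mass (fun x => c • f x) (c * m) :=
  fun ε hε => by
    filter_upwards [h (ε / (c + 1)) (by positivity), ev_unit_pos] with x h1 h2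
    rw [SB_smul]
    have h3 : c * (ε / (c + 1)) ≤ ε := by
      rw [mul_div_assoc', div_le_iff₀ (by positivity)]
      nlinarith
    nlinarith [mul_le_mul_of_nonneg_left h1 hc, mul_le_mul_of_nonneg_right h3 h2.2.le]

lemma Low.sum {ι : Type*} (s : Finset ι) {F : ι → ℝ → AF} {L : ι → ℝ}
    (h : ∀ i ∈ s, Low t (F i) (L i)) : Low t (fun x => ∑ i ∈ s, F i x) (∑ i ∈ s, L i) := by
  classical
  induction s using Finset.induction_on with
  | empty => simpa using (ev_zero t).1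
  | insert a s ha ih =>
    simp only [sum_insert ha]
    exact (h a (mem_insert_self _ _)).add (ih fun i hi => h i (mem_insert_of_mem hi))

lemma Up.sum {ι : Type*} (s : Finset ι) {F : ι → ℝ → AF} {L : ι → ℝ}
    (h : ∀ i ∈ s, Up t (F i) (L i)) : Up t (fun x => ∑ i ∈ s, F i x) (∑ i ∈ s, L i) := by
  classical
  induction s using Finset.induction_on with
  | empty => simpa using (ev_zero t).2
  | insert a s ha ih =>
    simp only [sum_insert ha]
    exact (h a (mem_insert_self _ _)).add (ih fun i hi => h i (mem_insert_of_mem hi))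

lemma Mass.sum {ι : Type*} (s : Finset ι) {F : ι → ℝ → AF} {L : ι → ℝ}
    (h : ∀ i ∈ s, Mass (F i) (L i)) : Mass (fun x => ∑ i ∈ s, F i x) (∑ i ∈ s, L i) := by
  classical
  induction s using Finset.induction_on with
  | empty => simpa using mass_zero
  | insert a s ha ih =>
    simp only [sum_insert ha]
    exact (h a (mem_insert_self _ _)).add (ih fun i hi => h i (mem_insert_of_mem hi))

/-! ### blocks -/

lemma bf_of_mem {x : ℝ} {B : Blk} {m : ℕ} (h : B.Mem x m) : bf x B m = 1 := if_pos h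

lemma bf_of_not {x : ℝ} {B : Blk} {m : ℕ} (h : ¬ B.Mem x m) : bf x B m = 0 := if_neg h

lemma mem_of_bf_ne {x : ℝ} {B : Blk} {m : ℕ} (h : bf x B m ≠ 0) : B.Mem x m := by
  by_contra h1
  exact h (bf_of_not h1)

lemma nn_bf (x : ℝ) (B : Blk) : Nn (bf x B) := fun m => by
  by_cases h : B.Mem x m
  · rw [bf_of_mem h]; norm_num
  · rw [bf_of_not h]

lemma bf_le_one (x : ℝ) (B : Blk) (m : ℕ) : bf x B m ≤ 1 := by
  by_cases h : B.Mem x m
  · rw [bf_of_mem h]
  · rw [bf_of_not h]; norm_num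

lemma abs_bf_le (x : ℝ) (B : Blk) (m : ℕ) : |bf x B m| ≤ 1 := by
  rw [abs_of_nonneg (nn_bf x B m)]
  exact bf_le_one x B m

lemma le_bf {x : ℝ} {B C : Blk} (h : ∀ m, B.Mem x m → C.Mem x m) : Le (bf x B) (bf x C) :=
  fun m => by
    by_cases h1 : B.Mem x m
    · rw [bf_of_mem h1, bf_of_mem (h m h1)]
    · rw [bf_of_not h1]
      exact nn_bf x C m

lemma Rough.anti {x a b : ℝ} (hx : 1 ≤ x) (hab : a ≤ b) {m : ℕ} (h : Rough x b m) :
    Rough x a m := fun p hp hd =>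
  (Real.rpow_le_rpow_of_exponent_le hx hab).trans_lt (h p hp hd)

lemma rough_one (x a : ℝ) : Rough x a 1 := fun _ hp hd => (hp.not_dvd_one hd).elim

lemma rough_mul {x a : ℝ} {m n : ℕ} : Rough x a (m * n) ↔ Rough x a m ∧ Rough x a n :=
  ⟨fun h => ⟨fun p hp hd => h p hp (hd.mul_right _), fun p hp hd => h p hp (hd.mul_left _)⟩,
    fun h p hp hd => (hp.dvd_mul.1 hd).elim (h.1 p hp) (h.2 p hp)⟩

lemma rough_prime {x a : ℝ} {p : ℕ} (hp : p.Prime) : Rough x a p ↔ x ^ a < p :=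
  ⟨fun h => h p hp dvd_rfl, fun h q hq hd => by rwa [(Nat.prime_dvd_prime_iff_eq hq hp).1 hd]⟩

/-- a rough number below the square of the level is prime -/
lemma prime_of_rough {x a : ℝ} (hx : 0 ≤ x) {m : ℕ} (h1 : 1 < m) (h : Rough x a m)
    (h2 : (m : ℝ) ≤ x ^ a * x ^ a) : m.Prime := by
  by_contra hm
  have h3 := Nat.minFac_sq_le_self (by omega) hm
  have h4 := h _ (Nat.minFac_prime (by omega)) (Nat.minFac_dvd m)
  have h5 : ((m.minFac : ℝ)) ^ 2 ≤ m := by exact_mod_cast h3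
  have h6 := Real.rpow_nonneg hx a
  nlinarith

lemma Blk.IsP.mem_iff {B : Blk} (hB : B.IsP) {x : ℝ} (hx : 1 ≤ x) {m : ℕ} :
    B.Mem x m ↔ m.Prime ∧ x ^ B.lo < m ∧ x ^ B.a < m ∧ (m : ℝ) ≤ x ^ B.hi := by
  constructor
  · rintro ⟨-, h1, h2, h3, -⟩
    have h4 : (1 : ℝ) < m := (Real.one_le_rpow hx hB.1).trans_lt h1
    have h5 : m.Prime := prime_of_rough (by linarith) (by exact_mod_cast h4) h3 (by
      rw [← Real.rpow_add (by linarith)]
      exact h2.trans (Real.rpow_le_rpow_of_exponent_le hx (by linarith [hB.2.1])))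
    exact ⟨h5, h1, (rough_prime h5).1 h3, h2⟩
  · rintro ⟨h1, h2, h3, h4⟩
    exact ⟨h1.ne_zero, h2, h4, (rough_prime h1).2 h3, by simp [hB.2.2]⟩

lemma mem_fr {x z : ℝ} (hx : 1 < x) {m : ℕ} :
    (fr z).Mem x m ↔ m ≠ 0 ∧ (m : ℝ) ≤ x ^ (2 : ℝ) ∧ Rough x z m := by
  refine ⟨fun h => ⟨h.1, h.2.2.1, h.2.2.2.1⟩, fun h => ⟨h.1, ?_, h.2.1, h.2.2, by simp [fr]⟩⟩
  have h1 : (1 : ℝ) ≤ m := by exact_mod_cast Nat.one_le_iff_ne_zero.2 h.1
  exact (Real.rpow_lt_one_of_one_lt_of_neg hx (by norm_num [fr])).trans_le h1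

/-! ### the linear programme -/

section LP

variable {ι ι' : Type} [Fintype ι] [Fintype ι'] {τ τ' η η' s s' : ℝ} {K K' : ℕ}

lemma con_tau {n w r : ℝ} (h : E.Con τ n w r) (hτ : τ ≤ τ') (h0 : 0 ≤ τ) : E.Con τ' n w r := by
  obtain ⟨h1, h2, h3, h4, h5⟩ := h
  have m1 : max τ n ≤ max τ' n := max_le_max hτ le_rfl
  have m2 : max n (τ / 2) ≤ max n (τ' / 2) := max_le_max le_rfl (by linarith)
  exact ⟨by linarith, h2.trans (max_le_max le_rfl (by linarith)),
    h3.trans (max_le_max le_rfl (max_le_max (by linarith) (by linarith))),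
    h4.trans (max_le_max le_rfl (by linarith)),
    h5.trans (max_le_max le_rfl (max_le_max (by linarith) (by linarith)))⟩

lemma Eval.anti {b b' : ι → ℝ} (h : Eval τ η K b' s) (hb : ∀ j, b j ≤ b' j) : Eval τ η K b s :=
  fun r v h0 h1 h2 h3 => h r v h0 h1 (fun j => by linarith [h2 j, hb j]) fun κ hκ =>
    (h3 κ hκ).mono (sum_le_sum fun j _ => mul_le_mul_of_nonneg_left (hb j) (Nat.cast_nonneg _))

lemma Eval.mono {b : ι → ℝ} (h : Eval τ η K b s) (hK : K ≤ K') (hη : η' ≤ η) (hs : s ≤ s') :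
    Eval τ η' K' b s' := fun r v h0 h1 h2 h3 => by
  have := h r v h0 h1 h2 fun κ hκ => h3 κ fun j => (hκ j).trans hK
  nlinarith

lemma Eval.tau {b : ι → ℝ} (h : Eval τ' η K b s) (hτ : τ ≤ τ') : Eval τ η K b s :=
  fun r v h0 h1 h2 h3 => h r v h0 (h1.trans hτ) h2 fun κ hκ =>
    con_tau (h3 κ hκ) hτ (h0.trans h1)

/-- factors may be merged into groups -/
lemma Eval.group [DecidableEq ι'] {b : ι → ℝ} {b' : ι' → ℝ} (g : ι → ι')
    (h : Eval τ η K b' s) (hb : ∀ i, ∑ j ∈ univ.filter (fun j => g j = i), b j ≤ b' i) :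
    Eval τ η K b s := by
  intro r v h0 h1 h2 h3
  have key : ∀ (κ : ι' → ℕ) (f : ι → ℝ),
      ∑ i, (κ i : ℝ) * ∑ j ∈ univ.filter (fun j => g j = i), f j = ∑ j, (κ (g j) : ℝ) * f j := by
    intro κ f
    rw [← sum_fiberwise univ g fun j => (κ (g j) : ℝ) * f j]
    refine sum_congr rfl fun i _ => ?_
    rw [mul_sum]
    exact sum_congr rfl fun j hj => by rw [(mem_filter.1 hj).2]
  have := (h.anti hb) r (fun i => ∑ j ∈ univ.filter (fun j => g j = i), v j) h0 h1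
    (fun i => by
      rw [sum_div]
      exact sum_le_sum fun j _ => h2 j)
    (fun κ hκ => by
      rw [key, key]
      exact h3 (fun j => κ (g j)) fun j => hκ _)
  rwa [sum_fiberwise univ g v] at this

lemma Eval.equiv {b : ι' → ℝ} (e : ι ≃ ι') (h : Eval τ η K b s) :
    Eval τ η K (fun j => b (e j)) s := by
  classical
  refine h.group e fun i => le_of_eq ?_
  rw [sum_eq_single_of_mem (e.symm i) (by simp) fun j hj hne =>
    (hne (by rw [← (mem_filter.1 hj).2, Equiv.symm_apply_apply])).elim, Equiv.apply_symm_apply]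

lemma E1pt.mono {a : ι → ℝ} {b : ℝ} (h : E1pt τ η K a b) (hK : K ≤ K') (hη : η' ≤ η) :
    E1pt τ η' K' a b := ⟨h.1, h.2.mono hK le_rfl (by linarith)⟩

lemma E2pt.mono {pr : ι → Prop} {a : ι → ℝ} (h : E2pt τ η K pr a) (hK : K ≤ K') (hη : η' ≤ η) :
    E2pt τ η' K' pr a := by
  obtain ⟨⟨i, j, k, h1, h2, h3, h4, h5, h6, h7⟩, h8⟩ := h
  exact ⟨⟨i, j, k, h1, h2, h3, h4, hη.trans h5, hη.trans h6, hη.trans h7⟩, h8.mono hK hη le_rfl⟩

lemma E1pt.group [DecidableEq ι'] {a : ι → ℝ} {a' : ι' → ℝ} {b : ℝ} (g : ι → ι')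
    (h : E1pt τ η K a' b) (ha : ∀ i, ∑ j ∈ univ.filter (fun j => g j = i), a j ≤ a' i) :
    E1pt τ η K a b := by
  refine ⟨h.1, h.2.group (Option.map g) fun o => ?_⟩
  rw [sum_filter, Fintype.sum_option]
  cases o with
  | none => simp
  | some i => simpa [sum_filter] using ha i

/-- a large group contains a large member -/
lemma exists_large {a : ι → ℝ} (s : Finset ι) (hη : 0 < η)
    (h : (Fintype.card ι : ℝ) * η ≤ ∑ j ∈ s, a j) [Nonempty ι] : ∃ j ∈ s, η ≤ a j := by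
  by_contra h1
  push Not at h1
  have h2 : (s.card : ℝ) ≤ Fintype.card ι := by exact_mod_cast card_le_univ s
  have h3 : (0 : ℝ) < Fintype.card ι := by exact_mod_cast Fintype.card_pos
  rcases s.eq_empty_or_nonempty with rfl | hs
  · rw [sum_empty] at h
    nlinarith
  · have h4 := sum_lt_sum_of_nonempty hs h1
    rw [sum_const, nsmul_eq_mul] at h4
    nlinarith

lemma E2pt.of_group [DecidableEq ι'] {pr : ι → Prop} {a : ι → ℝ} {a' : ι' → ℝ} (g : ι → ι')
    (hη : 0 < η) (i : ι) (hi : pr i) (hai : η ≤ a i) (j k : ι') (hj : g i ≠ j) (hk : g i ≠ k)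
    (hjk : j ≠ k)
    (h1 : (Fintype.card ι : ℝ) * η ≤ ∑ u ∈ univ.filter (fun u => g u = j), a u)
    (h2 : (Fintype.card ι : ℝ) * η ≤ ∑ u ∈ univ.filter (fun u => g u = k), a u)
    (h : Eval τ η K a' (1 / 2)) (ha : ∀ i, ∑ j ∈ univ.filter (fun j => g j = i), a j ≤ a' i) :
    E2pt τ η K pr a := by
  haveI : Nonempty ι := ⟨i⟩
  obtain ⟨u, hu, hu'⟩ := exists_large _ hη h1
  obtain ⟨w, hw, hw'⟩ := exists_large _ hη h2
  have e1 := (mem_filter.1 hu).2
  have e2 := (mem_filter.1 hw).2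
  exact ⟨⟨i, u, w, fun e => hj (e ▸ e1), fun e => hk (e ▸ e2), fun e => hjk (e1 ▸ e ▸ e2), hi,
    hai, hu', hw'⟩, h.group g ha⟩

end LP

end Pool.Agent.MP_c853c5_nt.S
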