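import Pool.Agent.MP_c853c5_nt.S.Defs

/-!
Leaves with two sieved factors: the interfaces.
-/

set_option autoImplicit false

open Finset Filter

namespace Pool.Agent.MP_c853c5_nt.S

/-- general factors of sizes `a` and two smooth factors of sizes `b1`, `b2` -/
def E12pt {ι : Type} [Fintype ι] (τ η : ℝ) (K : ℕ) (a : ι → ℝ) (b1 b2 : ℝ) : Prop :=
  1 / 10 ≤ b1 ∧ 1 / 10 ≤ b2 ∧
    Eval τ 0 K (fun o : Option (Option ι) => o.elim (E.av τ b1) fun o' => o'.elim (E.av τ b2) a)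
      (1 / 2 - η)

def E12D : Prop := ∀ (ι : Type) [Fintype ι] (τ t η : ℝ) (K : ℕ), 1 / 3 ≤ t → t < τ →
  τ ≤ 1 / 2 → 0 < η → η ≤ 1 / 1000 → ∃ γ : ℝ, 0 < γ ∧ ∀ᶠ x : ℝ in atTop,
    ∀ (a : ι → ℝ) (b1 b2 : ℝ) (N : ι → ℕ) (g : ι → AF) (d : ℕ) (y1 y2 : ℝ),
      (∀ i, 0 ≤ a i ∧ a i ≤ 1) → b1 ≤ 1 → b2 ≤ 1 → E12pt τ η K a b1 b2 →
      (∀ i, Slot (N i) (g i)) → (∀ i, (N i : ℝ) ≤ x ^ (a i + γ)) →
      x ^ (b1 - (τ - t) / 2) ≤ y1 → y1 ≤ x ^ (b1 + γ) →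
      x ^ (b2 - (τ - t) / 2) ≤ y2 → y2 ≤ x ^ (b2 + γ) →
      1 ≤ y1 → 1 ≤ y2 → 1 ≤ d → (d : ℝ) * (∏ i, (N i : ℝ)) * y1 * y2 ≤ 2 * x →
      |Dl t x (sgl d * (∏ i, g i) * omz y1 * omz y2)| ≤ x ^ (1 - η / 5)

/-- the four shapes: `c` are the general sizes, `b1` and `b2` the two sieved remainders -/
def Alt4 {ι : Type} [Fintype ι] (τ η η' : ℝ) (K : ℕ) (pr : ι → Prop) (c : ι → ℝ) (b1 b2 : ℝ) :
    Prop :=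
  E2pt τ η' K (fun o : Option (Option ι) => o.elim False fun o' => o'.elim False pr)
      (fun o => o.elim b1 fun o' => o'.elim b2 c) ∨
    E1pt τ η K (fun o : Option ι => o.elim b2 c) b1 ∨
    E1pt τ η K (fun o : Option ι => o.elim b1 c) b2 ∨ E12pt τ η K c b1 b2

/-- primes up to `x ^ z1` are taken from the free factor, primes up to `x ^ z2` from the factor
of size between `lo` and `hi` -/
def DustOK2 {r : ℕ} (τ : ℝ) (B : Fin r → Blk) (z1 z2 lo hi : ℝ) : Prop := ∃ η : ℝ, 0 < η ∧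
  ∀ κ : ℝ, 0 < κ → ∃ η' : ℝ, 0 < η' ∧ ∃ K : ℕ,
    ∀ (j1 j2 : ℕ) (a : Fin r → ℝ) (q1 : Fin j1 → ℝ) (q2 : Fin j2 → ℝ) (b1 b2 : ℝ), InBox B a →
      (∀ i, κ ≤ q1 i ∧ q1 i ≤ z1) → (∀ i, κ ≤ q2 i ∧ q2 i ≤ z2) → 0 ≤ b1 → 0 ≤ b2 →
      ∑ i, a i + (∑ i, q1 i + ∑ i, q2 i) + b1 + b2 = 1 →
      lo ≤ ∑ i, q2 i + b2 → ∑ i, q2 i + b2 ≤ hi →
      Alt4 τ η η' K
        (Sum.elim (fun i => (B i).IsP) fun _ : Fin j1 ⊕ Fin j2 => True)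
        (Sum.elim a (Sum.elim q1 q2)) b1 b2

def LeafS2 : Prop := ∀ τ t : ℝ, 1 / 3 ≤ t → t < τ → τ ≤ 1 / 2 →
  ∀ (r : ℕ) (B : Fin r → Blk) (z1 z2 lo hi : ℝ), (∀ i, 1 / 100 ≤ (B i).a) → 0 < z1 → 0 < z2 →
    1 / 100 ≤ lo → hi ≤ 99 / 100 → DustOK2 τ B z1 z2 lo hi →
    Ev t fun x => (∏ i, bf x (B i)) * bf x ⟨lo, hi, z2, none⟩ * bf x (fr z1)

end Pool.Agent.MP_c853c5_nt.S
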