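import Pool.Agent.MP_c853c5_nt.S.Basic
import Pool.Agent.MP_c853c5_nt.B.Defs

/-!
Type II leaves from the dyadic type II bound.
-/

set_option autoImplicit false

open Finset Filter

namespace Pool.Agent.MP_c853c5_nt.S.L2

open Pool.Agent.MP_c853c5_nt.B

lemma dy_apply (i : ℕ) (g : AF) (n : ℕ) :
    dy i g n = if 2 ^ i ≤ n ∧ n < 2 * 2 ^ i then g n else 0 := rfl

lemma dy_ne {i : ℕ} {g : AF} {n : ℕ} (h : dy i g n ≠ 0) :
    (2 ^ i ≤ n ∧ n < 2 * 2 ^ i) ∧ g n ≠ 0 := by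
  rw [dy_apply] at h
  split_ifs at h with h1
  · exact ⟨h1, h⟩
  · exact (h rfl).elim

lemma slot_dy (i : ℕ) {g : AF} (hg : ∀ n, |g n| ≤ 1) : Slot (2 ^ i) (dy i g) := by
  refine ⟨Nat.one_le_two_pow, fun n => ?_, fun n h => (dy_ne h).1⟩
  rw [dy_apply]
  split_ifs
  · exact hg n
  · simp

lemma sum_dy (g : AF) {L n : ℕ} (hn : n < 2 ^ L) : (∑ i ∈ range L, dy i g) n = g n := by
  rw [AF_sum]
  rcases Nat.eq_zero_or_pos n with rfl | h0
  · simp
  have h1 : Nat.log 2 n < L := (Nat.log_lt_iff_lt_pow one_lt_two h0.ne').2 hn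
  rw [sum_eq_single (Nat.log 2 n) (fun i _ hi => ?_) fun h => (h (mem_range.2 h1)).elim]
  · rw [dy_apply, if_pos ⟨Nat.pow_log_le_self 2 h0.ne', by
      rw [← pow_succ']
      exact Nat.lt_pow_succ_log_self one_lt_two n⟩]
  · rw [dy_apply, if_neg]
    rintro ⟨a, b⟩
    exact hi (Nat.log_eq_of_pow_le_of_lt_pow a (by rwa [pow_succ'])).symm

lemma prod_congr_lt {ι : Type} (s : Finset ι) {f g : ι → AF} {X : ℕ}
    (h : ∀ i ∈ s, ∀ n, n < X → f i n = g i n) :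
    ∀ n, n < X → (∏ i ∈ s, f i) n = (∏ i ∈ s, g i) n := by
  classical
  induction s using Finset.induction_on with
  | empty => intro n _; rfl
  | insert i s hi ih =>
    intro n hn
    rw [prod_insert hi, prod_insert hi, ArithmeticFunction.mul_apply,
      ArithmeticFunction.mul_apply]
    refine sum_congr rfl fun a ha => ?_
    rw [h i (mem_insert_self _ _) _ ((Nat.divisor_le
        (Nat.fst_mem_divisors_of_mem_antidiagonal ha)).trans_lt hn),
      ih (fun j hj => h j (mem_insert_of_mem hj)) _ ((Nat.divisor_le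
        (Nat.snd_mem_divisors_of_mem_antidiagonal ha)).trans_lt hn)]

/-- the dyadic decomposition of a product -/
lemma prod_dy {ι : Type} [Fintype ι] [DecidableEq ι] (g : ι → AF) {L n : ℕ} (hn : n < 2 ^ L) :
    (∏ i, g i) n = (∑ k ∈ Fintype.piFinset fun _ : ι => range L, ∏ i, dy (k i) (g i)) n := by
  rw [← prod_univ_sum (fun _ : ι => range L) fun i k => dy k (g i)]
  exact prod_congr_lt _ (fun i _ m hm => (sum_dy (g i) hm).symm) n hn

lemma proj_down {ι : Type} [Fintype ι] {l α : ι → ℝ} {s : ℝ} (h : ∀ i, l i ≤ α i)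
    (h1 : ∑ i, l i ≤ s) (h2 : s ≤ ∑ i, α i) :
    ∃ a : ι → ℝ, ∑ i, a i = s ∧ ∀ i, l i ≤ a i ∧ a i ≤ α i ∧ α i - a i ≤ ∑ i, α i - s := by
  have key : ∀ a : ι → ℝ, ∑ i, a i = s → (∀ i, a i ≤ α i) →
      ∀ i, α i - a i ≤ ∑ i, α i - s := by
    intro a ha hb i
    rw [← ha, ← sum_sub_distrib]
    exact single_le_sum (f := fun i => α i - a i) (fun j _ => sub_nonneg.2 (hb j)) (mem_univ i)
  rcases (h1.trans h2).eq_or_lt with e | e
  · have e1 : ∑ i, α i = s := le_antisymm (e ▸ h1) h2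
    exact ⟨α, e1, fun i => ⟨h i, le_rfl, key α e1 (fun _ => le_rfl) i⟩⟩
  · set c := (s - ∑ i, l i) / (∑ i, α i - ∑ i, l i) with hc
    have c0 : 0 ≤ c := div_nonneg (by linarith) (by linarith)
    have c1 : c ≤ 1 := (div_le_one (by linarith)).2 (by linarith)
    have e1 : ∑ i, (l i + c * (α i - l i)) = s := by
      rw [sum_add_distrib, ← mul_sum, sum_sub_distrib, hc, div_mul_cancel₀ _ (by linarith)]
      ring
    have e2 : ∀ i, l i + c * (α i - l i) ≤ α i := fun i => by nlinarith [h i]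
    exact ⟨_, e1, fun i => ⟨by nlinarith [h i], e2 i, key _ e1 e2 i⟩⟩

/-- projection of a point of a box to a hyperplane that meets the box -/
lemma proj {ι : Type} [Fintype ι] {l u α : ι → ℝ} {s : ℝ} (h : ∀ i, l i ≤ α i ∧ α i ≤ u i)
    (h1 : ∑ i, l i ≤ s) (h2 : s ≤ ∑ i, u i) :
    ∃ a : ι → ℝ, ∑ i, a i = s ∧ ∀ i, l i ≤ a i ∧ a i ≤ u i ∧ |α i - a i| ≤ |∑ i, α i - s| := by
  rcases le_total s (∑ i, α i) with e | e
  · obtain ⟨a, a1, a2⟩ := proj_down (fun i => (h i).1) h1 e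
    refine ⟨a, a1, fun i => ⟨(a2 i).1, (a2 i).2.1.trans (h i).2, ?_⟩⟩
    rw [abs_of_nonneg (sub_nonneg.2 (a2 i).2.1), abs_of_nonneg (sub_nonneg.2 e)]
    exact (a2 i).2.2
  · obtain ⟨a, a1, a2⟩ := proj_down (l := fun i => -u i) (α := fun i => -α i) (s := -s)
      (fun i => neg_le_neg (h i).2) (by rw [sum_neg_distrib]; linarith)
      (by rw [sum_neg_distrib]; linarith)
    refine ⟨fun i => -a i, by rw [sum_neg_distrib]; linarith, fun i => ?_⟩
    obtain ⟨b1, b2, b3⟩ := a2 i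
    rw [sum_neg_distrib] at b3
    refine ⟨by linarith [(h i).1], by linarith, ?_⟩
    rw [abs_of_nonpos (by linarith), abs_of_nonpos (by linarith)]
    linarith

lemma dy_prI (i P Q : ℕ) : dy i (prI P Q) = prI (max P (2 ^ i - 1)) (min Q (2 * 2 ^ i - 1)) := by
  ext n
  rw [dy_apply]
  change (if _ then (if _ then (1 : ℝ) else 0) else 0) = if _ then (1 : ℝ) else 0
  have h : 1 ≤ 2 ^ i := Nat.one_le_two_pow
  rw [← ite_and]
  refine if_congr ?_ rfl rfl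
  rw [max_lt_iff, le_min_iff]
  constructor
  · rintro ⟨⟨a, b⟩, c, d, e⟩
    exact ⟨⟨c, by omega⟩, ⟨d, by omega⟩, e⟩
  · rintro ⟨⟨a, b⟩, ⟨c, d⟩, e⟩
    exact ⟨⟨by omega, by omega⟩, a, c, e⟩

lemma ev_const_le (c : ℝ) {δ : ℝ} (hδ : 0 < δ) : ∀ᶠ x : ℝ in atTop, c ≤ x ^ δ :=
  (tendsto_rpow_atTop hδ).eventually_ge_atTop c

/-- a nominal point in the closed box with total size one -/
lemma nominal {ι : Type} [Fintype ι] (l u : ι → ℝ) : ∀ᶠ x : ℝ in atTop, ∀ m : ι → ℝ,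
    (∀ i, x ^ l i ≤ m i ∧ m i ≤ x ^ u i) → x / 2 < ∏ i, m i → ∏ i, m i ≤ 2 * x →
    ∃ a : ι → ℝ, ∑ i, a i = 1 ∧
      ∀ i, l i ≤ a i ∧ a i ≤ u i ∧ x ^ a i ≤ 2 * m i ∧ m i ≤ 2 * x ^ a i := by
  have e1 : ∀ᶠ x : ℝ in atTop, 1 < ∑ i, l i → 3 ≤ x ^ (∑ i, l i - 1) := by
    by_cases h : 1 < ∑ i, l i
    · exact (ev_const_le 3 (sub_pos.2 h)).mono fun _ h _ => h
    · exact Eventually.of_forall fun _ h' => (h h').elim
  have e2 : ∀ᶠ x : ℝ in atTop, ∑ i, u i < 1 → 2 ≤ x ^ (1 - ∑ i, u i) := by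
    by_cases h : ∑ i, u i < 1
    · exact (ev_const_le 2 (sub_pos.2 h)).mono fun _ h _ => h
    · exact Eventually.of_forall fun _ h' => (h h').elim
  filter_upwards [e1, e2, eventually_gt_atTop 1] with x e1 e2 hx m hm h1 h2
  have x0 : 0 < x := by linarith
  have lx := Real.log_pos hx
  have m0 : ∀ i, 0 < m i := fun i => (Real.rpow_pos_of_pos x0 _).trans_le (hm i).1
  have hl : ∑ i, l i ≤ 1 := by
    by_contra h
    have a1 := e1 (not_le.1 h)
    have a2 : x ^ (∑ i, l i) ≤ ∏ i, m i := by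
      rw [Real.rpow_sum_of_pos x0]
      exact prod_le_prod (fun i _ => (Real.rpow_pos_of_pos x0 _).le) fun i _ => (hm i).1
    rw [Real.rpow_sub_one x0.ne', le_div_iff₀ x0] at a1
    linarith
  have hu : 1 ≤ ∑ i, u i := by
    by_contra h
    have a1 := e2 (not_le.1 h)
    have a2 : ∏ i, m i ≤ x ^ (∑ i, u i) := by
      rw [Real.rpow_sum_of_pos x0]
      exact prod_le_prod (fun i _ => (m0 i).le) fun i _ => (hm i).2
    rw [Real.rpow_sub x0, Real.rpow_one, le_div_iff₀ (Real.rpow_pos_of_pos x0 _)] at a1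
    linarith
  obtain ⟨a, a1, a2⟩ := proj (l := l) (u := u) (α := fun i => Real.logb x (m i)) (s := 1)
    (fun i => ⟨(Real.le_logb_iff_rpow_le hx (m0 i)).2 (hm i).1,
      (Real.logb_le_iff_le_rpow hx (m0 i)).2 (hm i).2⟩) hl hu
  have p0 : 0 < ∏ i, m i := prod_pos fun i _ => m0 i
  have a3 : |∑ i, Real.logb x (m i) - 1| ≤ Real.logb x 2 := by
    rw [← Real.logb_prod _ _ fun i _ => (m0 i).ne']
    have b1 := Real.logb_le_logb_of_le hx p0 h2
    have b2 := Real.logb_le_logb_of_le hx (half_pos x0) h1.le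
    rw [Real.logb_mul two_ne_zero x0.ne', Real.logb_self_eq_one hx] at b1
    rw [Real.logb_div x0.ne' two_ne_zero, Real.logb_self_eq_one hx] at b2
    exact abs_le.2 ⟨by linarith, by linarith⟩
  refine ⟨a, a1, fun i => ?_⟩
  obtain ⟨b1, b2, b3⟩ := a2 i
  obtain ⟨b4, b5⟩ := abs_le.1 (b3.trans a3)
  have b6 := Real.rpow_logb x0 hx.ne' (m0 i)
  have b7 := Real.rpow_logb x0 hx.ne' two_pos
  refine ⟨b1, b2, ?_, ?_⟩
  · calc x ^ a i ≤ x ^ (Real.logb x 2 + Real.logb x (m i)) :=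
          Real.rpow_le_rpow_of_exponent_le hx.le (by linarith)
      _ = _ := by rw [Real.rpow_add x0, b6, b7]
  · calc m i = x ^ Real.logb x (m i) := b6.symm
      _ ≤ x ^ (Real.logb x 2 + a i) := Real.rpow_le_rpow_of_exponent_le hx.le (by linarith)
      _ = _ := by rw [Real.rpow_add x0, b7]

lemma bf_prime {B : Blk} (hB : B.IsP) {x : ℝ} (hx : 1 ≤ x) :
    bf x B = prI (max ⌊x ^ B.lo⌋₊ ⌊x ^ B.a⌋₊) ⌊x ^ B.hi⌋₊ := by
  ext n
  have x0 : ∀ c : ℝ, 0 ≤ x ^ c := fun c => Real.rpow_nonneg (by linarith) c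
  have h : B.Mem x n ↔ max ⌊x ^ B.lo⌋₊ ⌊x ^ B.a⌋₊ < n ∧ n ≤ ⌊x ^ B.hi⌋₊ ∧ n.Prime := by
    rw [hB.mem_iff hx, max_lt_iff, Nat.floor_lt (x0 _), Nat.floor_lt (x0 _),
      Nat.le_floor_iff (x0 _)]
    tauto
  change _ = if _ then (1 : ℝ) else 0
  split_ifs with h1
  · exact bf_of_mem (h.2 h1)
  · exact bf_of_not fun h2 => h1 (h.1 h2)

/-- the number of dyadic ranges -/
lemma ev_len : ∀ᶠ x : ℝ in atTop, ∃ L : ℕ, (L : ℝ) ≤ 3 * Real.log x ∧ 2 * x < 2 ^ L := by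
  filter_upwards [eventually_gt_atTop 1, Real.tendsto_log_atTop.eventually_ge_atTop 4]
    with x hx hl
  refine ⟨⌊2 * Real.log x⌋₊ + 1, ?_, ?_⟩
  · push_cast
    linarith [Nat.floor_le (show 0 ≤ 2 * Real.log x by linarith)]
  · have h1 := Nat.lt_floor_add_one (2 * Real.log x)
    have h2 := Real.log_two_gt_d9
    have h3 := Real.log_two_lt_d9
    rw [← Real.log_lt_log_iff (by linarith) (by positivity), Real.log_pow,
      Real.log_mul two_ne_zero (by linarith)]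
    push_cast
    nlinarith

end L2

open L2 B in
theorem leaf2 (h : E2D) : Leaf2 := by
  intro τ t h1 h2 h3 r B ⟨η, hη, K, hB⟩
  obtain ⟨γ, hγ, hE⟩ := h (Fin r) τ t η K (r + 2) h1 h2 h3 hη
  rw [ev_iff]
  intro ε hε
  filter_upwards [hE, nominal (fun i => max 0 (B i).lo) fun i => (B i).hi, ev_const_le 4 hγ,
    ev_len, eventually_gt_atTop 1, Real.tendsto_log_atTop.eventually_ge_atTop (3 ^ r / ε)]
    with x hE hN h4 ⟨L, hL, hL'⟩ hx hl
  have x0 : 0 < x := by linarith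
  have lx := Real.log_pos hx
  have cell : ∀ k : Fin r → ℕ,
      |Dl t x (∏ i, dy (k i) (bf x (B i)))| ≤ x / Real.log x ^ (r + 2) := by
    intro k
    by_cases hz : ∀ n, Win x n → (∏ i, dy (k i) (bf x (B i))) n = (0 : AF) n
    · rw [Dl_congr t hz, Dl_zero, abs_zero]
      positivity
    push Not at hz
    obtain ⟨n, hn, hz⟩ := hz
    obtain ⟨m, hm, hm'⟩ := exists_of_prod_ne univ _ hz
    have d1 := fun i => (dy_ne (hm' i (mem_univ i))).1
    have d2 := fun i => mem_of_bf_ne (dy_ne (hm' i (mem_univ i))).2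
    have d3 : ∏ i, (m i : ℝ) = n := by rw [← hm, Nat.cast_prod]
    have d4 : ∀ i, ((2 ^ k i : ℕ) : ℝ) ≤ m i := fun i => by exact_mod_cast (d1 i).1
    have d5 : ∀ i, (m i : ℝ) ≤ 2 * ((2 ^ k i : ℕ) : ℝ) := fun i => by exact_mod_cast (d1 i).2.le
    have d6 : ∀ i, x ^ max 0 (B i).lo ≤ m i := fun i => by
      rcases max_choice 0 (B i).lo with e | e
      · rw [e, Real.rpow_zero]
        exact_mod_cast Nat.one_le_iff_ne_zero.2 (d2 i).1
      · rw [e]
        exact (d2 i).2.1.le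
    obtain ⟨a, a1, a2⟩ := hN (fun i => (m i : ℝ)) (fun i => ⟨d6 i, (d2 i).2.2.1⟩)
      (d3 ▸ hn.1) (d3 ▸ hn.2)
    have a0 : ∀ i, 0 ≤ a i := fun i => (le_max_left _ _).trans (a2 i).1
    refine hE (fun i => (B i).IsP) a (fun i => 2 ^ k i) _
      (fun i => ⟨a0 i, a1 ▸ single_le_sum (fun j _ => a0 j) (mem_univ i)⟩)
      (hB a (fun i => ⟨a0 i, (le_max_right _ _).trans (a2 i).1, (a2 i).2.1⟩) a1)
      (fun i => slot_dy _ (abs_bf_le _ _)) (fun i => ⟨?_, ?_⟩)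
      (fun i hi => ⟨_, _, by rw [bf_prime hi hx.le, dy_prI]⟩) ?_
    · rw [Real.rpow_sub x0, div_le_iff₀ (by positivity)]
      have : (0 : ℝ) ≤ ((2 ^ k i : ℕ) : ℝ) := Nat.cast_nonneg _
      nlinarith [(a2 i).2.2.1, d5 i]
    · rw [Real.rpow_add x0]
      nlinarith [(a2 i).2.2.2, d4 i, Real.rpow_pos_of_pos x0 (a i)]
    · exact (prod_le_prod (fun i _ => Nat.cast_nonneg _) fun i _ => d4 i).trans (d3 ▸ hn.2)
  rw [Dl_congr t fun n hn => prod_dy (fun i => bf x (B i)) (L := L) (by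
    exact_mod_cast hn.2.trans_lt hL'), Dl_sum]
  refine (abs_sum_le_sum_abs _ _).trans ((sum_le_card_nsmul _ _ _ fun k _ => cell k).trans ?_)
  rw [nsmul_eq_mul, Fintype.card_piFinset, prod_const, card_range, card_univ, Fintype.card_fin,
    Nat.cast_pow]
  rw [div_le_iff₀ hε] at hl
  calc (L : ℝ) ^ r * (x / Real.log x ^ (r + 2))
      ≤ (3 * Real.log x) ^ r * (x / Real.log x ^ (r + 2)) := by gcongr
    _ = 3 ^ r / Real.log x * (x / Real.log x) := by
        rw [mul_pow]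
        field_simp
        ring
    _ ≤ _ := by
        refine mul_le_mul_of_nonneg_right ?_ (by positivity)
        rw [div_le_iff₀ lx]
        linarith

end Pool.Agent.MP_c853c5_nt.S
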