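import Pool.Agent.MP_c853c5_nt.Z.PDefs
import Pool.Agent.MP_c853c5_nt.E.Defs

/-!
Primes in short intervals by a sieve: the interfaces between the layers.
-/

set_option autoImplicit false

open Finset Filter

namespace Pool.Agent.MP_c853c5_nt.S

open Pool.Agent.MP_2a1f0e_nt

abbrev AF := ArithmeticFunction ℝ

/-! ### smoothed sums -/

/-- the smoothed sum around `x`, of total weight about `x` -/
noncomputable def SS (x Δ : ℝ) (f : AF) : ℝ :=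
  ∑ n ∈ Ioc ⌊x / 2⌋₊ ⌊2 * x⌋₊, f n * Z.gg Δ (Real.log x - Real.log n)

/-- the long sum -/
noncomputable def SB (x : ℝ) (f : AF) : ℝ := SS x (x ^ (-(1 / 1000) : ℝ)) f

/-- short sum minus long sum -/
noncomputable def Dl (t x : ℝ) (f : AF) : ℝ := SS x (x ^ (-t)) f - SB x f

def Low (t : ℝ) (f : ℝ → AF) (l : ℝ) : Prop := ∀ ε : ℝ, 0 < ε → ∀ᶠ x : ℝ in atTop,
  -((l + ε) * (x / Real.log x)) ≤ Dl t x (f x)

def Up (t : ℝ) (f : ℝ → AF) (l : ℝ) : Prop := ∀ ε : ℝ, 0 < ε → ∀ᶠ x : ℝ in atTop,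
  Dl t x (f x) ≤ (l + ε) * (x / Real.log x)

def Ev (t : ℝ) (f : ℝ → AF) : Prop := Low t f 0 ∧ Up t f 0

def Mass (f : ℝ → AF) (m : ℝ) : Prop := ∀ ε : ℝ, 0 < ε → ∀ᶠ x : ℝ in atTop,
  SB x (f x) ≤ (m + ε) * (x / Real.log x)

/-! ### the linear programme of large values -/

/-- the linear programme for factors of lengths `b`, with target `s` -/
def Eval {ι : Type} [Fintype ι] (τ η : ℝ) (K : ℕ) (b : ι → ℝ) (s : ℝ) : Prop :=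
  ∀ (r : ℝ) (v : ι → ℝ), 0 ≤ r → r ≤ τ → (∀ j, v j ≤ b j / 2) →
    (∀ κ : ι → ℕ, (∀ j, κ j ≤ K) → E.Con τ (∑ j, (κ j : ℝ) * b j) (∑ j, (κ j : ℝ) * v j) r) →
    (1 + η) * r + ∑ j, v j ≤ s

/-- general factors of sizes `a` and one smooth factor of size `b` -/
def E1pt {ι : Type} [Fintype ι] (τ η : ℝ) (K : ℕ) (a : ι → ℝ) (b : ℝ) : Prop :=
  1 / 10 ≤ b ∧ Eval τ 0 K (fun o : Option ι => o.elim (E.av τ b) a) (1 / 2 - η)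

/-- general factors of sizes `a`, those in `pr` being sums over primes -/
def E2pt {ι : Type} [Fintype ι] (τ η : ℝ) (K : ℕ) (pr : ι → Prop) (a : ι → ℝ) : Prop :=
  (∃ i j k, i ≠ j ∧ i ≠ k ∧ j ≠ k ∧ pr i ∧ η ≤ a i ∧ η ≤ a j ∧ η ≤ a k) ∧
    Eval τ η K a (1 / 2)

/-! ### layer E: one dyadic box -/

def Slot (N : ℕ) (g : AF) : Prop :=
  1 ≤ N ∧ (∀ n, |g n| ≤ 1) ∧ ∀ n, g n ≠ 0 → N ≤ n ∧ n < 2 * N

/-- the primes in `(P, Q]` -/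
noncomputable def prI (P Q : ℕ) : AF :=
  ⟨fun n => if P < n ∧ n ≤ Q ∧ n.Prime then 1 else 0, by simp⟩

/-- the point mass at `d` -/
noncomputable def sgl (d : ℕ) : AF := ⟨fun n => if n = d ∧ n ≠ 0 then 1 else 0, by simp⟩

/-- the smooth factor, supported in `[y, 5 y / 3]` -/
noncomputable def omz (y : ℝ) : AF :=
  ⟨fun l => DH.om ((l : ℝ) / y), DH.om_eq_zero (Or.inl (by simp))⟩

def E1D : Prop := ∀ (ι : Type) [Fintype ι] (τ t η : ℝ) (K : ℕ), 1 / 3 ≤ t → t < τ →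
  τ ≤ 1 / 2 → 0 < η → η ≤ 1 / 1000 → ∃ γ : ℝ, 0 < γ ∧ ∀ᶠ x : ℝ in atTop,
    ∀ (a : ι → ℝ) (b : ℝ) (N : ι → ℕ) (g : ι → AF) (d : ℕ) (y : ℝ),
      (∀ i, 0 ≤ a i ∧ a i ≤ 1) → b ≤ 1 → E1pt τ η K a b → (∀ i, Slot (N i) (g i)) →
      (∀ i, (N i : ℝ) ≤ x ^ (a i + γ)) → x ^ (b - (τ - t) / 2) ≤ y → y ≤ x ^ (b + γ) →
      1 ≤ y → 1 ≤ d → (d : ℝ) * (∏ i, (N i : ℝ)) * y ≤ 2 * x →
      |Dl t x (sgl d * (∏ i, g i) * omz y)| ≤ x ^ (1 - η / 5)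

def E2D : Prop := ∀ (ι : Type) [Fintype ι] (τ t η : ℝ) (K A : ℕ), 1 / 3 ≤ t → t < τ →
  τ ≤ 1 / 2 → 0 < η → ∃ γ : ℝ, 0 < γ ∧ ∀ᶠ x : ℝ in atTop,
    ∀ (pr : ι → Prop) (a : ι → ℝ) (N : ι → ℕ) (g : ι → AF), (∀ i, 0 ≤ a i ∧ a i ≤ 1) →
      E2pt τ η K pr a → (∀ i, Slot (N i) (g i)) →
      (∀ i, x ^ (a i - γ) ≤ N i ∧ (N i : ℝ) ≤ x ^ (a i + γ)) →
      (∀ i, pr i → ∃ P Q : ℕ, g i = prI P Q) →
      (∏ i, (N i : ℝ)) ≤ 2 * x →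
      |Dl t x (∏ i, g i)| ≤ x / Real.log x ^ A

/-! ### blocks -/

/-- all prime factors exceed `x ^ a` -/
def Rough (x a : ℝ) (m : ℕ) : Prop := ∀ p : ℕ, p.Prime → p ∣ m → x ^ a < p

/-- size in `(x ^ lo, x ^ hi]`, least prime factor in `(x ^ a, x ^ b]` -/
structure Blk where
  lo : ℝ
  hi : ℝ
  a : ℝ
  b : Option ℝ

def Blk.Mem (B : Blk) (x : ℝ) (m : ℕ) : Prop :=
  m ≠ 0 ∧ x ^ B.lo < m ∧ (m : ℝ) ≤ x ^ B.hi ∧ Rough x B.a m ∧ ∀ c ∈ B.b, ¬ Rough x c m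

open Classical in
/-- the indicator function of a block -/
noncomputable def bf (x : ℝ) (B : Blk) : AF :=
  ⟨fun m => if B.Mem x m then 1 else 0, by simp [Blk.Mem]⟩

/-- a block that consists of primes -/
def Blk.IsP (B : Blk) : Prop := 0 ≤ B.lo ∧ B.hi ≤ 2 * B.a ∧ B.b = none

/-- the free block with least prime factor above `x ^ z` -/
def fr (z : ℝ) : Blk := ⟨-1, 2, z, none⟩

def InBox {r : ℕ} (B : Fin r → Blk) (a : Fin r → ℝ) : Prop :=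
  ∀ i, 0 ≤ a i ∧ (B i).lo ≤ a i ∧ a i ≤ (B i).hi

/-- every point of the box is of type II -/
def Reg2 {r : ℕ} (τ : ℝ) (B : Fin r → Blk) : Prop := ∃ η : ℝ, 0 < η ∧ ∃ K : ℕ,
  ∀ a : Fin r → ℝ, InBox B a → ∑ i, a i = 1 → E2pt τ η K (fun i => (B i).IsP) a

/-- whatever primes up to `x ^ z` are taken from the free factor, the shape is of type I or II -/
def DustOK {r : ℕ} (τ : ℝ) (B : Fin r → Blk) (z : ℝ) : Prop := ∃ η : ℝ, 0 < η ∧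
  ∀ κ : ℝ, 0 < κ → ∃ η' : ℝ, 0 < η' ∧ ∃ K : ℕ,
    ∀ (j : ℕ) (a : Fin r → ℝ) (q : Fin j → ℝ) (b : ℝ), InBox B a → (∀ i, κ ≤ q i ∧ q i ≤ z) →
      0 ≤ b → ∑ i, a i + ∑ i, q i + b = 1 →
      E1pt τ η K (Sum.elim a q) b ∨
        E2pt τ η' K
          (fun o : Option (Fin r ⊕ Fin j) =>
            o.elim False (Sum.elim (fun i => (B i).IsP) fun _ => True))
          (fun o => o.elim b (Sum.elim a q))

/-! ### layer DUST: the leaves -/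

def Leaf2 : Prop := ∀ τ t : ℝ, 1 / 3 ≤ t → t < τ → τ ≤ 1 / 2 →
  ∀ (r : ℕ) (B : Fin r → Blk), Reg2 τ B → Ev t fun x => ∏ i, bf x (B i)

def LeafS : Prop := ∀ τ t : ℝ, 1 / 3 ≤ t → t < τ → τ ≤ 1 / 2 →
  ∀ (r : ℕ) (B : Fin r → Blk) (z : ℝ), (∀ i, 1 / 100 ≤ (B i).a) → 0 < z → DustOK τ B z →
    Ev t fun x => (∏ i, bf x (B i)) * bf x (fr z)

/-! ### the end -/

/-- a lower bound with loss below one gives a prime -/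
def EndStmt : Prop := ∀ t z l θ : ℝ, 1 / 3 ≤ t → t < 1 / 2 → 1 / 2 < z → z < 1 → l < 1 →
  1 - t < θ → Low t (fun x => bf x (fr z)) l →
    ∃ n₀ : ℕ, ∀ n : ℕ, n₀ ≤ n → ∃ p : ℕ, p.Prime ∧ n < p ∧ (p : ℝ) < n + (n : ℝ) ^ θ

/-- what the certificate has to give -/
def Cert (τ : ℝ) : Prop := Leaf2 → LeafS → ∃ z l : ℝ, 1 / 2 < z ∧ z < 1 ∧ l < 1 ∧
  ∀ t : ℝ, 1 / 3 ≤ t → t < τ → Low t (fun x => bf x (fr z)) l

theorem assemble {τ : ℝ} (h1 : 1 / 3 < τ) (h2 : τ ≤ 1 / 2) (hC : Cert τ) (hL : Leaf2)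
    (hS : LeafS) (hE : EndStmt) (θ : ℝ) (hθ : 1 - τ < θ) :
    ∃ n₀ : ℕ, ∀ n : ℕ, n₀ ≤ n → ∃ p : ℕ, p.Prime ∧ n < p ∧ (p : ℝ) < n + (n : ℝ) ^ θ := by
  obtain ⟨z, l, hz, hz1, hl, h⟩ := hC hL hS
  obtain ⟨t, ht1, ht2⟩ := exists_between (max_lt h1 (show 1 - θ < τ by linarith))
  have ht3 := (le_max_left _ _).trans ht1.le
  have ht4 := (le_max_right _ _).trans_lt ht1
  exact hE t z l θ ht3 (by linarith) hz hz1 hl (by linarith) (h t ht3 ht2)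

end Pool.Agent.MP_c853c5_nt.S
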