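import Pool.Agent.MP_c853c5_nt.E.Basic

set_option autoImplicit false

open Finset Filter

namespace Pool.Agent.MP_c853c5_nt.E

open Pool.Agent.MP_2a1f0e_nt Pool.Agent.MP_2a1f0e_nt.GM Pool.Agent.MP_2a1f0e_nt.DH

lemma win_BoxF {δ γ : ℝ} (hδ : δ ≤ 1 / 10) (hγ : 0 < γ) : ∀ᶠ x : ℝ in atTop, ∀ τ : ℝ,
    1 / 3 ≤ τ → τ ≤ 1 / 2 → ∃ T : ℕ, 1 ≤ T ∧ (T : ℝ) ≤ x ^ (τ + γ) ∧
      x ^ δ ≤ x ^ τ * Real.log x ^ 3 ∧ x ^ τ * Real.log x ^ 3 - x ^ δ ≤ T ∧
      x ^ τ * Real.log x ^ 3 ≤ x := by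
  filter_upwards [ev_log_le 2 3 hγ, ev_log_le 1 3 one_half_pos, ev_le_log 1,
    eventually_ge_atTop 1] with x h1 h2 h3 h4 τ a1 a2
  have x0 : 0 < x := by linarith
  have b1 : 1 ≤ Real.log x ^ 3 := one_le_pow₀ h3
  have b2 : 1 ≤ x ^ τ := Real.one_le_rpow h4 (by linarith)
  have b3 : 1 ≤ x ^ τ * Real.log x ^ 3 := one_le_mul_of_one_le_of_one_le b2 b1
  refine ⟨⌈x ^ τ * Real.log x ^ 3⌉₊, Nat.ceil_pos.2 (by linarith), ?_, ?_, ?_, ?_⟩
  · have := Nat.ceil_lt_add_one (zero_le_one.trans b3)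
    rw [Real.rpow_add x0]
    nlinarith
  · exact (Real.rpow_le_rpow_of_exponent_le h4 (by linarith)).trans
      (le_mul_of_one_le_right (by linarith) b1)
  · linarith [Nat.le_ceil (x ^ τ * Real.log x ^ 3), Real.rpow_nonneg x0.le δ]
  · calc _ ≤ x ^ (1 / 2 : ℝ) * x ^ (1 / 2 : ℝ) :=
          mul_le_mul (Real.rpow_le_rpow_of_exponent_le h4 a2) (by linarith) (by linarith)
            (by positivity)
      _ = x := by rw [← Real.rpow_add x0, add_halves, Real.rpow_one]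

lemma card_BoxF {ι : Type} [Fintype ι] {N : ι → ℕ} (h : ∀ j, 1 ≤ N j) :
    ∏ j, ((Icc (N j) (2 * N j)).card : ℝ) ≤ 2 ^ Fintype.card ι * ∏ j, (N j : ℝ) := by
  refine (prod_le_prod (fun _ _ => Nat.cast_nonneg _) fun j _ => card_blk_le (h j)).trans_eq ?_
  rw [prod_mul_distrib, prod_const, card_univ]

theorem boxII_fix (hG : GridIIStmt) (hI : GrdStmt) (hT : TbStmt) : BoxIIStmt := by
  intro ι _ _ K A η δ c₀ ia ib ic h1 h2 h3 hη hδ hδ' hc
  obtain ⟨γ, hγ, hG⟩ := hG ι K (A + 1) η c₀ ia ib ic h1 h2 h3 hη hc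
  refine ⟨γ, hγ, ?_⟩
  filter_upwards [hG, hT δ hδ hδ', win_BoxF hδ' hγ, ev_le_log 2,
    ev_le_log (2 ^ Fintype.card ι * 8), ev_log_le 2 A (half_pos hδ), eventually_gt_atTop 0] with
    x hG hT hW l1 l2 l3 x0 τ v Δ Δ₀ b N c a1 a2 a3 a4 a5 a6 a7 a8 a9 a10 a11
  obtain ⟨T, t1, t2, t3, t4, t5⟩ := hW τ a1 a2
  have b1 := hI (fun t => ∏ j, ‖BP (N j) (c j) t‖) _ _ (x / Real.log x ^ (A + 1)) T
    (continuous_finsetProd _ fun j _ => (continuous_BP _ _).norm)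
    (fun t => prod_nonneg fun _ _ => norm_nonneg _) t3 t4 fun u S hS hm =>
      hG τ u b T N c S (by linarith) a2 a4 a5 t1 t2 a6 a7 a8 a9 a10 hS fun m h =>
        a11 _ (hm m h).1 ((hm m h).2.trans t5)
  refine (hT ι τ v Δ Δ₀ _ _ c a1 a2 a3 (fun j h => ?_) a10 ?_ b1).trans ?_
  · have := (a6 j).1
    have := (mem_Icc.1 h).1
    omega
  · refine (card_BoxF fun j => (a6 j).1).trans ?_
    calc _ ≤ 2 ^ Fintype.card ι * (8 * x) := by gcongr
      _ = x * (2 ^ Fintype.card ι * 8) := by ring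
      _ ≤ _ := by gcongr
  · have p : 0 < Real.log x ^ A := pow_pos (by linarith) A
    have e1 : x / Real.log x ^ (A + 1) ≤ x / (2 * Real.log x ^ A) := by
      rw [pow_succ']
      gcongr
    have e2 : x ^ (1 - δ / 2) ≤ x / (2 * Real.log x ^ A) := by
      rw [Real.rpow_sub x0, Real.rpow_one]
      gcongr
    calc _ ≤ x / (2 * Real.log x ^ A) + x / (2 * Real.log x ^ A) := add_le_add e1 e2
      _ = _ := by field_simp; norm_num

theorem boxI_fix (hG : GridIStmt) (hA : AvStmt) (hI : GrdStmt) (hT : TbStmt) : BoxIStmt := by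
  intro ι _ _ K η δ hη h1 hδ hδ'
  obtain ⟨γ, hγ, hG⟩ := hG ι K η hη h1
  refine ⟨γ / 4, by positivity, ?_⟩
  filter_upwards [hG, hA δ γ hδ hγ, hT δ hδ hδ', win_BoxF hδ' hγ,
    ev_le_log (2 ^ Fintype.card ι * 8), eventually_ge_atTop 1] with
    x hG hA hT hW l1 x1 τ v Δ Δ₀ y a b N c a1 a2 a3 a4 a5 a6 a7 a8 a9 a10 a11
  have x0 : 0 < x := by linarith
  obtain ⟨T, t1, t2, t3, t4, -⟩ := hW τ a1 a2
  have p1 : 1 ≤ ∏ j, (N j : ℝ) := by
    exact_mod_cast one_le_prod' fun j _ => (a6 j).1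
  obtain ⟨L, s1, s2, s3⟩ := hA τ a y a1 a2 a7
    ((le_mul_of_one_le_right (by linarith) p1).trans a10) a8 a9
  have b1 := hI (fun t => ‖ZS y t‖ * ∏ j, ‖BP (N j) (c j) t‖) _ _ (x ^ (1 - η / 2)) T
    ((continuous_ZS y).norm.mul (continuous_finsetProd _ fun j _ => (continuous_BP _ _).norm))
    (fun t => mul_nonneg (norm_nonneg _) (prod_nonneg fun _ _ => norm_nonneg _)) t3 t4
    fun u S hS hm => hG τ u y (av τ a) b T L N c S (fun m => ‖ZS y (u + m)‖) (by linarith) a2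
      (av_nonneg _ _) ((av_le (by linarith) a).trans (by linarith)) a4 a5 t1 t2
      (fun j => ⟨(a6 j).1, (a6 j).2.trans (Real.rpow_le_rpow_of_exponent_le x1 (by linarith))⟩)
      s1 s2 (by linarith) a10 a11 hS (fun _ _ => norm_nonneg _) (s3 u S fun m h => by
        rw [abs_of_nonneg ((Real.rpow_nonneg x0.le δ).trans (hm m h).1)]
        exact hm m h)
  refine hT (Option ι) τ v Δ Δ₀ (x ^ (1 - η / 2)) _ _ a1 a2 a3 (fun o h => ?_) (fun o n => ?_)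
    ?_ ?_
  · rcases o with _ | j
    · exact Nat.not_lt_zero _ (mem_Ioc.1 h).1
    · have := (a6 j).1
      have := (mem_Icc.1 h).1
      omega
  · rcases o with _ | j
    exacts [abs_oc_le y n, a11 j n]
  · rw [Fintype.prod_option]
    change ((Ioc ⌊y⌋₊ (2 * ⌊y⌋₊)).card : ℝ) * ∏ j, ((Icc (N j) (2 * N j)).card : ℝ) ≤ _
    rw [Nat.card_Ioc, show 2 * ⌊y⌋₊ - ⌊y⌋₊ = ⌊y⌋₊ by omega]
    calc _ ≤ y * (2 ^ Fintype.card ι * ∏ j, (N j : ℝ)) :=
          mul_le_mul (Nat.floor_le (by linarith)) (card_BoxF fun j => (a6 j).1) (by positivity)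
            (by linarith)
      _ = 2 ^ Fintype.card ι * (y * ∏ j, (N j : ℝ)) := by ring
      _ ≤ 2 ^ Fintype.card ι * (8 * x) := by gcongr
      _ = x * (2 ^ Fintype.card ι * 8) := by ring
      _ ≤ _ := by gcongr
  · simp only [Fintype.prod_option]
    exact b1

end Pool.Agent.MP_c853c5_nt.E
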