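import Pool.Agent.MP_c853c5_nt.S.BoxF
import Pool.Agent.MP_c853c5_nt.S.Leaf2
import Pool.Agent.MP_c853c5_nt.D.Main
import Pool.Agent.MP_c853c5_nt.L.Main
import Pool.Agent.MP_c853c5_nt.E.Av
import Pool.Agent.MP_c853c5_nt.E.ConL
import Pool.Agent.MP_c853c5_nt.E.Core
import Pool.Agent.MP_c853c5_nt.E.DOne
import Pool.Agent.MP_c853c5_nt.E.DThree
import Pool.Agent.MP_c853c5_nt.E.Exp
import Pool.Agent.MP_c853c5_nt.E.GlueI
import Pool.Agent.MP_c853c5_nt.E.GlueII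
import Pool.Agent.MP_c853c5_nt.E.Grd
import Pool.Agent.MP_c853c5_nt.E.GridI
import Pool.Agent.MP_c853c5_nt.E.GridII
import Pool.Agent.MP_c853c5_nt.E.Hal
import Pool.Agent.MP_c853c5_nt.E.Lev
import Pool.Agent.MP_c853c5_nt.E.Prod
import Pool.Agent.MP_c853c5_nt.E.Reg
import Pool.Agent.MP_c853c5_nt.E.Slv
import Pool.Agent.MP_c853c5_nt.E.Tb
import Pool.Agent.MP_c853c5_nt.E.Tr
import Pool.Agent.MP_c853c5_nt.Z.PMain
import Pool.Agent.MP_c853c5_nt.Z.YMv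
import Pool.Agent.MP_c853c5_nt.Z.YSpl
import Pool.Agent.MP_2a1f0e_nt.GM4.Main
import Pool.Agent.MP_2a1f0e_nt.RF.Main
import Pool.Agent.MP_2a1f0e_nt.SQ.Main

/-!
The analytic layers, without hypotheses.
-/

set_option autoImplicit false

namespace Pool.Agent.MP_c853c5_nt.S

open Pool.Agent.MP_2a1f0e_nt Pool.Agent.MP_c853c5_nt.E

theorem exp_all : E.ExpStmt :=
  exp_stmt (slv_stmt _ reg_stmt.1 (d1_stmt Z.yMv))
    (slv_stmt _ reg_stmt.2.1 (d2_stmt Z.yMv Z.ySpl GM.b2_all))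
    (slv_stmt _ reg_stmt.2.2.1 (d3_stmt Z.yMv GM4.final4_all))
    (slv_stmt _ reg_stmt.2.2.2.1 (d4_stmt Z.yMv Z.ySpl RF.lv_all))
    (slv_stmt _ reg_stmt.2.2.2.2 (d5_stmt SQ.int6_all))

theorem core_all : E.CoreStmt := core_stmt (con_stmt exp_all (prod_stmt mul_stmt)) lev_stmt

theorem e1d_all : E1D :=
  e1d_of (boxI_fix (gridI_stmt core_all self_stmt) av_stmt grd_stmt (tb_stmt tr_stmt))

theorem e2d_all : E2D :=
  e2d_of (boxII_fix (gridII_stmt core_all self_stmt (hal_stmt Z.ker_all)) grd_stmt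
    (tb_stmt tr_stmt)) Z.pr_all

theorem leaf2_all : Leaf2 := leaf2 e2d_all

theorem leafS_all : LeafS := D.leafS e1d_all e2d_all

/-- the theorem from a certificate -/
theorem of_cert {τ : ℝ} (h1 : 1 / 3 < τ) (h2 : τ ≤ 1 / 2) (hC : Cert τ) (θ : ℝ) (hθ : 1 - τ < θ) :
    ∃ n₀ : ℕ, ∀ n : ℕ, n₀ ≤ n → ∃ p : ℕ, p.Prime ∧ n < p ∧ (p : ℝ) < n + (n : ℝ) ^ θ :=
  assemble h1 h2 hC leaf2_all leafS_all L.end_all θ hθ

end Pool.Agent.MP_c853c5_nt.S
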